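import Pool.Agent.Lib.MP_5fa244_nt.Final

namespace Pool.Agent.Results.MP_5fa244_nt.TenBLogB

/-- For all sufficiently large integers `b` and all integers `a`: `|a - e ^ b| > b ^ (-10 b)`. -/
theorem result : ∃ b₀ : ℕ, ∀ b : ℕ, b₀ ≤ b → ∀ a : ℤ,
    (b : ℝ) ^ (-(10 * (b : ℝ))) < |(a : ℝ) - Real.exp b| := by
  obtain ⟨b₀, h⟩ := Filter.eventually_atTop.1 Pool.Agent.Lib.MP_5fa244_nt.main
  refine ⟨max b₀ 1, fun b hb a => ?_⟩
  have h1 : (0 : ℝ) < b := by exact_mod_cast (le_max_right b₀ 1).trans hb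
  have h2 := h b ((le_max_left _ _).trans hb) a
  rw [Real.rpow_def_of_pos h1]
  convert h2 using 2
  ring

end Pool.Agent.Results.MP_5fa244_nt.TenBLogB
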